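import Pool.Agent.Lib.MP_76c07a_co.Bound

set_option autoImplicit false

namespace Pool.Agent.Lib.MP_76c07a_co

open MeasureTheory Set

/-- the smooth middle part of the extremal density -/
noncomputable def midF (m s : ℝ) : ℝ := (1 + (s - 1 / 2) / √((s - 1 / 2) ^ 2 + 2 * m)) / 2

/-- the extremal density -/
noncomputable def extF (m s : ℝ) : ℝ := if s < m then 1 else if s ≤ 1 - m then midF m s else 0

/-- the mass of zeros to the right of `s`, on the middle part -/
noncomputable def xi (m s : ℝ) : ℝ := ((1 / 2 - s) + √((s - 1 / 2) ^ 2 + 2 * m)) / 2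

lemma continuous_midF {m : ℝ} (hm : 0 < m) : Continuous (midF m) := by
  unfold midF
  refine Continuous.div_const (Continuous.add continuous_const
    (Continuous.div (by fun_prop) (by fun_prop) fun s => ?_)) 2
  exact (Real.sqrt_pos.2 (by positivity)).ne'

lemma midF_mem {m : ℝ} (hm : 0 < m) (s : ℝ) : midF m s ∈ Icc (0 : ℝ) 1 := by
  have hpos : 0 < √((s - 1 / 2) ^ 2 + 2 * m) := Real.sqrt_pos.2 (by positivity)
  have h : |s - 1 / 2| ≤ √((s - 1 / 2) ^ 2 + 2 * m) := Real.abs_le_sqrt (by linarith)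
  rw [abs_le] at h
  have h1 : (s - 1 / 2) / √((s - 1 / 2) ^ 2 + 2 * m) ≤ 1 := (div_le_one hpos).2 h.2
  have h2 : -1 ≤ (s - 1 / 2) / √((s - 1 / 2) ^ 2 + 2 * m) := by
    rw [le_div_iff₀ hpos]; linarith [h.1]
  unfold midF
  constructor <;> linarith

lemma isSublebesgue_extF {m : ℝ} (hm : 0 < m) : IsSublebesgue (extF m) := by
  constructor
  · unfold extF
    refine Measurable.ite measurableSet_Iio measurable_const ?_
    exact Measurable.ite measurableSet_Iic (continuous_midF hm).measurable measurable_const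
  · intro x _
    unfold extF
    split_ifs
    · exact ⟨zero_le_one, le_rfl⟩
    · exact midF_mem hm x
    · exact ⟨le_rfl, zero_le_one⟩

lemma hasDerivAt_xi {m : ℝ} (hm : 0 < m) (s : ℝ) : HasDerivAt (xi m) (-(1 - midF m s)) s := by
  have hpos : 0 < (s - 1 / 2) ^ 2 + 2 * m := by positivity
  have h1 : HasDerivAt (fun s : ℝ => (s - 1 / 2) ^ 2 + 2 * m) (2 * (s - 1 / 2)) s :=
    ((((hasDerivAt_id s).sub_const (1 / 2)).pow 2).add_const (2 * m)).congr_deriv (by simp)
  have h2 := ((((hasDerivAt_id s).const_sub (1 / 2)).add (h1.sqrt hpos.ne')).div_const 2)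
  refine HasDerivAt.congr_deriv h2 ?_
  have : √((s - 1 / 2) ^ 2 + 2 * m) ≠ 0 := (Real.sqrt_pos.2 hpos).ne'
  unfold midF
  field_simp
  ring

lemma xi_right {m : ℝ} (hm : 0 < m) : xi m (1 - m) = m := by
  unfold xi
  have : (1 - m - 1 / 2) ^ 2 + 2 * m = (m + 1 / 2) ^ 2 := by ring
  rw [this, Real.sqrt_sq (by linarith)]
  ring

lemma xi_left {m : ℝ} (hm : 0 < m) : xi m m = 1 / 2 := by
  unfold xi
  have : (m - 1 / 2) ^ 2 + 2 * m = (m + 1 / 2) ^ 2 := by ring
  rw [this, Real.sqrt_sq (by linarith)]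
  ring

lemma xi_quad {m : ℝ} (hm : 0 < m) (s : ℝ) : xi m s ^ 2 - (1 / 2 - s) * xi m s - m / 2 = 0 := by
  have h := Real.sq_sqrt (show 0 ≤ (s - 1 / 2) ^ 2 + 2 * m by positivity)
  unfold xi
  nlinarith

lemma xi_ge {m : ℝ} (hm : 0 < m) {s : ℝ} (hs : s ≤ 1 - m) : m ≤ xi m s := by
  have h : 2 * m - (1 / 2 - s) ≤ √((s - 1 / 2) ^ 2 + 2 * m) := by
    apply Real.le_sqrt_of_sq_le
    nlinarith
  unfold xi
  linarith

lemma V_def (f : ℝ → ℝ) (s : ℝ) : J f [false] s = ∫ t in s..1, (1 - f t) := by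
  simp [J, letterFun]

lemma V_right {m : ℝ} {s : ℝ} (hs : 1 - m ≤ s) (hs1 : s ≤ 1) :
    J (extF m) [false] s = 1 - s ∨ 1 - m < m := by
  by_cases hm : 1 - m < m
  · exact Or.inr hm
  left
  rw [V_def, intervalIntegral.integral_of_le hs1,
    setIntegral_congr_fun (g := fun _ => (1 : ℝ)) measurableSet_Ioc]
  · simp [hs1]
  · intro t ht
    have h1 : ¬ t < m := by linarith [ht.1]
    have h2 : ¬ t ≤ 1 - m := by linarith [ht.1]
    simp [extF, h1, h2]

lemma ii_one_sub {m : ℝ} (hm : 0 < m) {a b : ℝ} (ha : a ∈ Icc (0 : ℝ) 1) (hb : b ∈ Icc (0 : ℝ) 1) :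
    IntervalIntegrable (fun t => 1 - extF m t) volume a b := by
  have h := intervalIntegrable_letterFun (isSublebesgue_extF hm) false
  have h2 : letterFun (extF m) false = fun t => 1 - extF m t := by ext t; simp [letterFun]
  rw [h2] at h
  refine h.mono_set ?_
  rw [uIcc_of_le zero_le_one]
  exact uIcc_subset_Icc ha hb

lemma V_mid {m : ℝ} (hm : 0 < m) (hm' : m < 1 / 2) {s : ℝ} (hs : m ≤ s) (hs1 : s ≤ 1 - m) :
    J (extF m) [false] s = xi m s := by
  have h1 : J (extF m) [false] (1 - m) = 1 - (1 - m) :=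
    (V_right (m := m) le_rfl (by linarith)).resolve_right (by linarith)
  rw [V_def] at h1 ⊢
  rw [← intervalIntegral.integral_add_adjacent_intervals (b := 1 - m)
    (ii_one_sub hm ⟨by linarith, by linarith⟩ ⟨by linarith, by linarith⟩)
    (ii_one_sub hm ⟨by linarith, by linarith⟩ ⟨by linarith, by linarith⟩), h1]
  rw [intervalIntegral.integral_congr (g := fun t => 1 - midF m t)]
  · have hd : ∀ t ∈ uIcc s (1 - m), HasDerivAt (fun t => -xi m t) (1 - midF m t) t :=
      fun t _ => (hasDerivAt_xi hm t).neg.congr_deriv (by ring)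
    rw [intervalIntegral.integral_eq_sub_of_hasDerivAt hd
      ((continuous_const.sub (continuous_midF hm)).intervalIntegrable _ _), xi_right hm]
    ring
  · intro t ht
    rw [uIcc_of_le hs1] at ht
    have h1 : ¬ t < m := by linarith [ht.1]
    simp [extF, h1, ht.2]

lemma V_zero {m : ℝ} (hm : 0 < m) (hm' : m < 1 / 2) : J (extF m) [false] 0 = 1 / 2 := by
  have h1 := V_mid hm hm' (s := m) le_rfl (by linarith)
  rw [V_def] at h1 ⊢
  rw [← intervalIntegral.integral_add_adjacent_intervals (b := m)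
    (ii_one_sub hm ⟨by linarith, by linarith⟩ ⟨by linarith, by linarith⟩)
    (ii_one_sub hm ⟨by linarith, by linarith⟩ ⟨by linarith, by linarith⟩), h1, xi_left hm,
    intervalIntegral.integral_of_le hm.le, integral_Ioc_eq_integral_Ioo,
    setIntegral_congr_fun (g := fun _ => (0 : ℝ)) measurableSet_Ioo]
  · simp
  · intro t ht
    simp [extF, ht.2]

theorem attain {n : ℝ} (hn : 0 < n) (hn' : n < 1 / 4) :
    J (extF (2 * n)) [true, false, true, false] 0 = R (J (extF (2 * n)) [true, false] 0) n := by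
  have hm : 0 < 2 * n := by linarith
  have hm' : 2 * n < 1 / 2 := by linarith
  have hf := isSublebesgue_extF hm
  have hk := key_identity hf hn
  have hα := V_zero hm hm'
  have hβ : J (extF (2 * n)) [true] 0 = 1 / 2 := by
    have := J_sum hf (s := 0) ⟨le_rfl, zero_le_one⟩
    linarith
  rw [intervalIntegral.integral_congr (g := fun _ => (0 : ℝ))] at hk
  · rw [hα, hβ, Phi_of_ge hn (by linarith)] at hk
    unfold R
    have h1 : Real.log (1 / 2 * (1 / 2)) - Real.log n = -Real.log (4 * n) := by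
      rw [Real.log_mul (by norm_num) hn.ne']
      have : (1 / 2 * (1 / 2) : ℝ) = 4⁻¹ := by norm_num
      rw [this, Real.log_inv]
      ring
    rw [h1] at hk
    simp only [intervalIntegral.integral_zero] at hk
    nlinarith
  · intro t ht
    rw [uIcc_of_le zero_le_one] at ht
    have hs := J_sum hf ht
    rw [hβ]
    rcases lt_or_ge t (2 * n) with h1 | h1
    · simp [extF, h1]
    rcases le_or_gt t (1 - 2 * n) with h2 | h2
    · have hV := V_mid hm hm' h1 h2
      have hq := xi_quad hm t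
      have hg := xi_ge hm h2
      have hU : J (extF (2 * n)) [true] t = 1 - t - xi (2 * n) t := by linarith
      simp only [hV, hU]
      set x := xi (2 * n) t
      have hx : 0 < x := by linarith
      rw [phi_of_ge (by linarith)]
      have h3 : x * (1 - t - x) = 1 / 2 * x - n := by nlinarith
      have h4 : 1 / 2 * ((1 / 2 * x - n) ^ 2 / (1 / 2 * x)) -
          (-(x * (1 - t - x) ^ 2) + 2 * (1 / 2 * x - n) * (1 - t - x)) =
          (x * (1 - t - x) - (1 / 2 * x - n)) ^ 2 / x := by
        field_simp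
        ring
      rw [h4, h3]
      simp
    · have hV : J (extF (2 * n)) [false] t = 1 - t :=
        (V_right (m := 2 * n) h2.le ht.2).resolve_right (by linarith)
      have hU : J (extF (2 * n)) [true] t = 0 := by linarith
      simp only [hV, hU]
      rw [phi_of_le (by linarith)]
      simp

lemma hasDerivAt_R (a : ℝ) {n : ℝ} (hn : 0 < n) :
    HasDerivAt (R a) (-2 * a + 2 * n - 2 * n * Real.log (4 * n)) n := by
  have h4 : (4 * n) ≠ 0 := by positivity
  have h1 : HasDerivAt (fun n : ℝ => Real.log (4 * n)) (4 / (4 * n)) n :=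
    (((hasDerivAt_id n).const_mul 4).log h4).congr_deriv (by simp)
  have h2 := ((((hasDerivAt_id n).const_mul 2).mul_const a).const_sub (a ^ 2 / 2)).add
    ((hasDerivAt_pow 2 n).const_mul (3 / 2)) |>.sub ((hasDerivAt_pow 2 n).mul h1)
  refine HasDerivAt.congr_deriv h2 ?_
  field_simp
  ring

/-- The extremal points. -/
theorem extremal {n : ℝ} (hn : 0 < n) (hn' : n < 1 / 4) :
    J (extF (2 * n)) [true, false] 0 = n * (1 - Real.log (4 * n)) ∧
    J (extF (2 * n)) [true, false, true, false] 0 = n ^ 2 * Real.log (4 * n) ^ 2 / 2 := by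
  have hf := isSublebesgue_extF (show 0 < 2 * n by linarith)
  have h1 := attain hn hn'
  set a := J (extF (2 * n)) [true, false] 0
  have hmin : IsLocalMin (R a) n := by
    filter_upwards [Ioo_mem_nhds hn hn'] with k hk
    rw [← h1]
    exact upper_bound hf hk.1 hk.2.le
  have h2 := hmin.hasDerivAt_eq_zero (hasDerivAt_R a hn)
  have h3 : a = n * (1 - Real.log (4 * n)) := by linarith
  refine ⟨h3, ?_⟩
  rw [h1, h3]
  unfold R
  ring

end Pool.Agent.Lib.MP_76c07a_co
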