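import Pool.Agent.Lib.MP_76c07a_co.Fubini

set_option autoImplicit false

namespace Pool.Agent.Lib.MP_76c07a_co

open MeasureTheory Set

lemma ac_comp {Φ g : ℝ → ℝ} {K : NNReal} {S : Set ℝ} {a b : ℝ} (hΦ : LipschitzOnWith K Φ S)
    (hg : AbsolutelyContinuousOnInterval g a b) (hm : MapsTo g (uIcc a b) S) :
    AbsolutelyContinuousOnInterval (fun x => Φ (g x)) a b := by
  rw [absolutelyContinuousOnInterval_iff] at hg ⊢
  intro ε hε
  obtain ⟨δ, hδ, h⟩ := hg (ε / (K + 1)) (by positivity)
  refine ⟨δ, hδ, fun E hE₁ hE₂ => ?_⟩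
  have h1 := h E hE₁ hE₂
  calc ∑ i ∈ Finset.range E.1, dist (Φ (g (E.2 i).1)) (Φ (g (E.2 i).2))
      ≤ ∑ i ∈ Finset.range E.1, K * dist (g (E.2 i).1) (g (E.2 i).2) := by
        refine Finset.sum_le_sum fun i hi => ?_
        exact hΦ.dist_le_mul _ (hm (hE₁.1 i hi).1) _ (hm (hE₁.1 i hi).2)
    _ = K * ∑ i ∈ Finset.range E.1, dist (g (E.2 i).1) (g (E.2 i).2) := by
        rw [Finset.mul_sum]
    _ ≤ K * (ε / (K + 1)) := by gcongr
    _ < (K + 1) * (ε / (K + 1)) := by gcongr; linarith
    _ = ε := by field_simp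

lemma ac_const (c a b : ℝ) : AbsolutelyContinuousOnInterval (fun _ : ℝ => c) a b :=
  (contDiffOn_const (c := c)).absolutelyContinuousOnInterval

lemma ac_ftc {F F' : ℝ → ℝ} (hF : AbsolutelyContinuousOnInterval F 0 1)
    (hd : ∀ᵐ t, t ∈ uIcc (0 : ℝ) 1 → HasDerivAt F (F' t) t) :
    ∫ t in (0 : ℝ)..1, F' t = F 1 - F 0 := by
  rw [← hF.integral_deriv_eq_sub]
  refine intervalIntegral.integral_congr_ae ?_
  filter_upwards [hd] with t ht h
  exact ((ht (uIoc_subset_uIcc h)).deriv).symm

lemma intervalIntegrable_letterFun {f : ℝ → ℝ} (hf : IsSublebesgue f) (b : Bool) :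
    IntervalIntegrable (letterFun f b) volume 0 1 := by
  rw [intervalIntegrable_iff_integrableOn_Icc_of_le zero_le_one]
  refine Measure.integrableOn_of_bounded (M := 1) (by simp)
    (measurable_letterFun hf b).aestronglyMeasurable ?_
  rw [ae_restrict_iff' measurableSet_Icc]
  exact Filter.Eventually.of_forall fun x hx => abs_letterFun_le hf b hx

lemma J_cons_eq (f : ℝ → ℝ) (b : Bool) (w : List Bool) :
    J f (b :: w) = fun s => -∫ t in (1 : ℝ)..s, letterFun f b t * J f w t := by
  ext s
  rw [J, intervalIntegral.integral_symm]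

lemma ac_J {f : ℝ → ℝ} (hf : IsSublebesgue f) (w : List Bool) :
    AbsolutelyContinuousOnInterval (J f w) 0 1 := by
  induction w with
  | nil =>
    have : J f [] = fun _ => 1 := by ext s; simp [J]
    rw [this]; exact ac_const 1 0 1
  | cons b w ih =>
    rw [J_cons_eq]
    exact (((intervalIntegrable_letterFun hf b).mul_continuousOn
      ih.continuousOn).absolutelyContinuousOnInterval_intervalIntegral (by simp)).neg

lemma deriv_J {f : ℝ → ℝ} (hf : IsSublebesgue f) (b : Bool) (w : List Bool) :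
    ∀ᵐ t, t ∈ uIcc (0 : ℝ) 1 →
      HasDerivAt (J f (b :: w)) (-(letterFun f b t * J f w t)) t := by
  have h := ((intervalIntegrable_letterFun hf b).mul_continuousOn
      (ac_J hf w).continuousOn).ae_hasDerivAt_integral
  filter_upwards [h] with t ht hm
  rw [J_cons_eq]
  exact (ht hm 1 (by simp)).neg

lemma J_one (f : ℝ → ℝ) (b : Bool) (w : List Bool) : J f (b :: w) 1 = 0 := by
  simp [J]

lemma J_single_nonneg {f : ℝ → ℝ} (hf : IsSublebesgue f) (b : Bool) {s : ℝ}
    (hs : s ∈ Icc (0 : ℝ) 1) : 0 ≤ J f [b] s := by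
  rw [J]
  refine intervalIntegral.integral_nonneg hs.2 fun u hu => ?_
  simpa [J] using (letterFun_mem hf b ⟨hs.1.trans hu.1, hu.2⟩).1

lemma J_sum {f : ℝ → ℝ} (hf : IsSublebesgue f) {s : ℝ}
    (hs : s ∈ Icc (0 : ℝ) 1) : J f [true] s + J f [false] s = 1 - s := by
  have hsub : uIcc s 1 ⊆ uIcc (0 : ℝ) 1 := by
    rw [uIcc_of_le hs.2, uIcc_of_le zero_le_one]
    exact Icc_subset_Icc hs.1 le_rfl
  simp only [J, mul_one]
  rw [← intervalIntegral.integral_add ((intervalIntegrable_letterFun hf true).mono_set hsub)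
    ((intervalIntegrable_letterFun hf false).mono_set hsub)]
  simp [letterFun]

/-- the function `(v - n)₊² / v` -/
noncomputable def phi (n v : ℝ) : ℝ := (max (v - n) 0) ^ 2 / max v n

/-- its primitive -/
noncomputable def Phi (n v : ℝ) : ℝ := ∫ u in (0 : ℝ)..v, phi n u

lemma continuous_phi {n : ℝ} (hn : 0 < n) : Continuous (phi n) := by
  unfold phi
  refine Continuous.div (by fun_prop) (by fun_prop) fun v => ?_
  exact (lt_of_lt_of_le hn (le_max_right _ _)).ne'

lemma hasDerivAt_Phi {n : ℝ} (hn : 0 < n) (v : ℝ) : HasDerivAt (Phi n) (phi n v) v :=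
  intervalIntegral.integral_hasDerivAt_right ((continuous_phi hn).intervalIntegrable _ _)
    ((continuous_phi hn).stronglyMeasurableAtFilter _ _) (continuous_phi hn).continuousAt

lemma contDiff_Phi {n : ℝ} (hn : 0 < n) : ContDiff ℝ 1 (Phi n) := by
  rw [contDiff_one_iff_deriv]
  refine ⟨fun v => (hasDerivAt_Phi hn v).differentiableAt, ?_⟩
  have : deriv (Phi n) = phi n := by ext v; exact (hasDerivAt_Phi hn v).deriv
  rw [this]; exact continuous_phi hn

lemma phi_of_le {n v : ℝ} (h : v ≤ n) : phi n v = 0 := by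
  unfold phi
  rw [max_eq_right (by linarith)]
  simp

lemma phi_of_ge {n v : ℝ} (h : n ≤ v) : phi n v = (v - n) ^ 2 / v := by
  unfold phi
  rw [max_eq_left (by linarith), max_eq_left h]

lemma Phi_of_le {n v : ℝ} (hn : 0 < n) (h : v ≤ n) : Phi n v = 0 := by
  unfold Phi
  rw [intervalIntegral.integral_congr (g := fun _ => (0 : ℝ))]
  · simp
  · intro u hu
    apply phi_of_le
    rcases mem_uIcc.1 hu with h1 | h1 <;> linarith [h1.2]

lemma Phi_of_ge {n v : ℝ} (hn : 0 < n) (h : n ≤ v) :
    Phi n v = (v ^ 2 - n ^ 2) / 2 - 2 * n * (v - n) + n ^ 2 * (Real.log v - Real.log n) := by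
  have h0 := Phi_of_le hn (le_refl n)
  unfold Phi at h0 ⊢
  rw [← intervalIntegral.integral_add_adjacent_intervals (b := n)
    ((continuous_phi hn).intervalIntegrable _ _) ((continuous_phi hn).intervalIntegrable _ _), h0,
    zero_add]
  have hd : ∀ u ∈ uIcc n v, HasDerivAt
      (fun u : ℝ => u ^ 2 / 2 - 2 * n * u + n ^ 2 * Real.log u) (phi n u) u := by
    intro u hu
    rw [uIcc_of_le h] at hu
    have hu0 : u ≠ 0 := (lt_of_lt_of_le hn hu.1).ne'
    have h1 := (((hasDerivAt_pow 2 u).div_const 2).sub ((hasDerivAt_id u).const_mul (2 * n))).add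
      ((Real.hasDerivAt_log hu0).const_mul (n ^ 2))
    refine HasDerivAt.congr_deriv h1 ?_
    rw [phi_of_ge hu.1]
    field_simp
    ring
  rw [intervalIntegral.integral_eq_sub_of_hasDerivAt hd
    ((continuous_phi hn).intervalIntegrable _ _)]
  ring

/-- The key identity. -/
lemma key_identity {f : ℝ → ℝ} (hf : IsSublebesgue f) {n : ℝ} (hn : 0 < n) :
    Phi n (J f [true] 0 * J f [false] 0) -
      (J f [true, false, true, false] 0
        - (J f [true] 0 * J f [false] 0 - J f [true, false] 0) ^ 2 / 2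
        + (J f [true] 0 * J f [false] 0 - 2 * n) *
          (J f [true] 0 * J f [false] 0 - J f [true, false] 0)) =
    ∫ t in (0 : ℝ)..1, (1 - f t) * (J f [true] 0 * phi n (J f [true] 0 * J f [false] t) -
      (-(J f [false] t * J f [true] t ^ 2) + 2 * (J f [true] 0 * J f [false] t - n) *
        J f [true] t)) := by
  set β := J f [true] 0 with hβ
  set U := J f [true] with hU
  set V := J f [false] with hV
  set A := J f [true, false] with hA
  set B := J f [false, true, false] with hB
  set C := J f [true, false, true, false] with hC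
  have aU : AbsolutelyContinuousOnInterval U 0 1 := ac_J hf _
  have aV : AbsolutelyContinuousOnInterval V 0 1 := ac_J hf _
  have aA : AbsolutelyContinuousOnInterval A 0 1 := ac_J hf _
  have aB : AbsolutelyContinuousOnInterval B 0 1 := ac_J hf _
  have aC : AbsolutelyContinuousOnInterval C 0 1 := ac_J hf _
  have hβ0 : 0 ≤ β := J_single_nonneg hf true ⟨le_rfl, zero_le_one⟩
  have hβ1 : β ≤ 1 := by
    have h1 := J_sum hf (s := 0) ⟨le_rfl, zero_le_one⟩
    have h2 := J_single_nonneg hf false (s := 0) ⟨le_rfl, zero_le_one⟩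
    linarith
  obtain ⟨K, hK⟩ := (contDiff_Phi hn).contDiffOn.exists_lipschitzOnWith (s := Icc 0 1)
    (by decide) (convex_Icc _ _) isCompact_Icc
  have aP : AbsolutelyContinuousOnInterval (fun t => Phi n (β * V t)) 0 1 := by
    refine ac_comp hK (aV.const_mul β) fun t ht => ?_
    rw [uIcc_of_le zero_le_one] at ht
    have h1 := J_sum hf ht
    have h2 := J_single_nonneg hf false ht
    have h3 := J_single_nonneg hf true ht
    refine ⟨mul_nonneg hβ0 h2, mul_le_one₀ hβ1 h2 ?_⟩
    linarith [ht.1]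
  let G : ℝ → ℝ := fun t => V t * U t - A t
  have aG : AbsolutelyContinuousOnInterval G 0 1 := (aV.mul aU).sub aA
  let D : ℝ → ℝ := fun t => (C t + (β - U t) * B t - G t * G t * (1 / 2) +
    (β * V t - 2 * n) * G t) - Phi n (β * V t)
  have aD : AbsolutelyContinuousOnInterval D 0 1 :=
    (((aC.add (((ac_const β 0 1).sub aU).mul aB)).sub ((aG.mul aG).mul (ac_const (1 / 2) 0 1))).add
      (((aV.const_mul β).sub (ac_const (2 * n) 0 1)).mul aG)).sub aP
  have hD := ac_ftc (F' := fun t => (1 - f t) * (β * phi n (β * V t) -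
      (-(V t * U t ^ 2) + 2 * (β * V t - n) * U t))) aD (by
    filter_upwards [deriv_J hf true [], deriv_J hf false [], deriv_J hf true [false],
      deriv_J hf false [true, false], deriv_J hf true [false, true, false]]
      with t h1 h2 h3 h4 h5 ht
    have dU : HasDerivAt U (-(f t)) t := (h1 ht).congr_deriv (by simp [letterFun, J])
    have dV : HasDerivAt V (-(1 - f t)) t := (h2 ht).congr_deriv (by simp [letterFun, J])
    have dA : HasDerivAt A (-(f t * V t)) t := by simpa [letterFun] using h3 ht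
    have dB : HasDerivAt B (-((1 - f t) * A t)) t := by simpa [letterFun] using h4 ht
    have dC : HasDerivAt C (-(f t * B t)) t := by simpa [letterFun] using h5 ht
    have dG : HasDerivAt G (-((1 - f t) * U t)) t := by
      exact ((dV.mul dU).sub dA).congr_deriv (by ring)
    have dP : HasDerivAt (fun t => Phi n (β * V t)) (phi n (β * V t) * (β * -(1 - f t))) t :=
      HasDerivAt.comp (h₂ := Phi n) (h := fun t => β * V t) t (hasDerivAt_Phi hn (β * V t))
        (dV.const_mul β)
    have := (((dC.add ((dU.const_sub β).mul dB)).sub ((dG.mul dG).mul_const (1 / 2))).add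
      (((dV.const_mul β).sub_const (2 * n)).mul dG)).sub dP
    refine HasDerivAt.congr_deriv this ?_
    simp only [G]
    ring)
  rw [hD]
  have e1 : U 1 = 0 := J_one _ _ _
  have e2 : V 1 = 0 := J_one _ _ _
  have e3 : A 1 = 0 := J_one _ _ _
  have e4 : B 1 = 0 := J_one _ _ _
  have e5 : C 1 = 0 := J_one _ _ _
  have e6 : Phi n 0 = 0 := Phi_of_le hn hn.le
  simp only [D, G, e1, e2, e3, e4, e5, mul_zero, e6, ← hβ]
  ring

lemma pointwise_bound {n β X Y : ℝ} (hn : 0 < n) (hβ : 0 ≤ β) (hX : 0 ≤ X) (hY : 0 ≤ Y) :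
    -(X * Y ^ 2) + 2 * (β * X - n) * Y ≤ β * phi n (β * X) := by
  rcases le_or_gt (β * X) n with h | h
  · rw [phi_of_le h]
    have : 0 ≤ X * Y ^ 2 := by positivity
    nlinarith
  · rw [phi_of_ge h.le]
    have h1 : 0 < β * X := hn.trans h
    have hX' : 0 < X := by
      rcases hX.eq_or_lt with h2 | h2
      · rw [← h2] at h1; simp at h1
      · exact h2
    have hβ' : 0 < β := by
      rcases hβ.eq_or_lt with h2 | h2
      · rw [← h2] at h1; simp at h1
      · exact h2
    have : β * ((β * X - n) ^ 2 / (β * X)) - (-(X * Y ^ 2) + 2 * (β * X - n) * Y) =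
        (X * Y - (β * X - n)) ^ 2 / X := by
      field_simp
      ring
    have h2 : 0 ≤ (X * Y - (β * X - n)) ^ 2 / X := by positivity
    linarith

/-- The right-hand side of the universal inequality. -/
noncomputable def R (a n : ℝ) : ℝ :=
  a ^ 2 / 2 - 2 * n * a + 3 / 2 * n ^ 2 - n ^ 2 * Real.log (4 * n)

theorem upper_bound {f : ℝ → ℝ} (hf : IsSublebesgue f) {n : ℝ} (hn : 0 < n) (hn' : n ≤ 1 / 4) :
    J f [true, false, true, false] 0 ≤ R (J f [true, false] 0) n := by
  have hk := key_identity hf hn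
  have h0 : (0 : ℝ) ∈ Icc (0 : ℝ) 1 := ⟨le_rfl, zero_le_one⟩
  have hβ := J_single_nonneg hf true h0
  have hα := J_single_nonneg hf false h0
  have hs := J_sum hf h0
  have hI : 0 ≤ ∫ t in (0 : ℝ)..1, (1 - f t) *
      (J f [true] 0 * phi n (J f [true] 0 * J f [false] t) -
      (-(J f [false] t * J f [true] t ^ 2) + 2 * (J f [true] 0 * J f [false] t - n) *
        J f [true] t)) := by
    refine intervalIntegral.integral_nonneg zero_le_one fun t ht => mul_nonneg ?_ ?_
    · linarith [(hf.2 t ht).2]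
    · linarith [pointwise_bound hn hβ (J_single_nonneg hf false ht) (J_single_nonneg hf true ht)]
  rw [← hk] at hI
  set P := J f [true] 0 * J f [false] 0 with hP
  set a := J f [true, false] 0
  set b := J f [true, false, true, false] 0
  have hP0 : 0 ≤ P := mul_nonneg hβ hα
  have hP1 : P ≤ 1 / 4 := by nlinarith [sq_nonneg (J f [true] 0 - J f [false] 0)]
  have hlog : Real.log (4 * n) ≤ 0 := Real.log_nonpos (by linarith) (by linarith)
  unfold R
  rcases le_or_gt P n with h | h
  · rw [Phi_of_le hn h] at hI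
    have h1 : n ^ 2 * Real.log (4 * n) ≤ 0 := mul_nonpos_of_nonneg_of_nonpos (sq_nonneg _) hlog
    nlinarith [mul_nonneg (sub_nonneg.2 h) (show 0 ≤ 3 * n - P by linarith)]
  · rw [Phi_of_ge hn h.le] at hI
    have hP' : 0 < P := hn.trans h
    have h1 : Real.log P - Real.log n ≤ -Real.log (4 * n) := by
      have h2 : Real.log (4 * P) ≤ 0 := Real.log_nonpos (by linarith) (by linarith)
      rw [Real.log_mul (by norm_num) hP'.ne'] at h2
      rw [Real.log_mul (by norm_num) hn.ne']
      have h3 : Real.log n ≤ Real.log n := le_rfl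
      linarith
    have h2 : n ^ 2 * (Real.log P - Real.log n) ≤ n ^ 2 * -Real.log (4 * n) :=
      mul_le_mul_of_nonneg_left h1 (sq_nonneg _)
    nlinarith

end Pool.Agent.Lib.MP_76c07a_co
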