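import Mathlib

set_option autoImplicit false

namespace Pool.Agent.Lib.MP_76c07a_co

open MeasureTheory

/-- The function `g` attached to a letter: `f` for the letter `1` (`true`), `1 - f` for the
letter `0` (`false`). -/
def letterFun (f : ℝ → ℝ) (b : Bool) (x : ℝ) : ℝ := if b = true then f x else 1 - f x

/-- The ordered simplex `0 ≤ x₁ < ⋯ < xₘ ≤ 1`. -/
def orderedSimplex (m : ℕ) : Set (Fin m → ℝ) :=
  {x | StrictMono x ∧ ∀ i, x i ∈ Set.Icc (0 : ℝ) 1}

/-- The density `ρ_w(f) = m! ∫_{0 ≤ x₁ < ⋯ < xₘ ≤ 1} ∏ gᵢ(xᵢ) dx` of the binary word `w`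
(a list of length `m`, `true` = letter 1, `false` = letter 0). -/
noncomputable def density (w : List Bool) (f : ℝ → ℝ) : ℝ :=
  (w.length.factorial : ℝ) *
    ∫ x in orderedSimplex w.length, ∏ i : Fin w.length, letterFun f (w.get i) (x i)

/-- `f` is the density of a sublebesgue measure: measurable, with values in `[0,1]` on `[0,1]`. -/
def IsSublebesgue (f : ℝ → ℝ) : Prop :=
  Measurable f ∧ ∀ x ∈ Set.Icc (0 : ℝ) 1, f x ∈ Set.Icc (0 : ℝ) 1

/-- The feasibility set `E_W ⊆ ℝ^k` of the words `W 0, …, W (k-1)`. -/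
def feasibilitySet {k : ℕ} (W : Fin k → List Bool) : Set (Fin k → ℝ) :=
  {y | ∃ f : ℝ → ℝ, IsSublebesgue f ∧ ∀ j, y j = density (W j) f}

/-- A subset of `ℝ^k` is semi-algebraic if it is a finite union of sets
`{x | p x = 0, q₁ x > 0, …, q_r x > 0}` with real polynomials `p, q₁, …, q_r`. -/
def IsSemialgebraic {k : ℕ} (S : Set (Fin k → ℝ)) : Prop :=
  ∃ (n : ℕ) (p : Fin n → MvPolynomial (Fin k) ℝ) (q : Fin n → Finset (MvPolynomial (Fin k) ℝ)),
    S = ⋃ i, {x | MvPolynomial.eval x (p i) = 0 ∧ ∀ r ∈ q i, 0 < MvPolynomial.eval x r}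

end Pool.Agent.Lib.MP_76c07a_co
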