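import Pool.Agent.Lib.MP_76c07a_co.Defs

set_option autoImplicit false

namespace Pool.Agent.Lib.MP_76c07a_co

open MeasureTheory Set

/-- ordered simplex with coordinates in a set `T` -/
def simp' (m : ℕ) (T : Set ℝ) : Set (Fin m → ℝ) := {x | StrictMono x ∧ ∀ i, x i ∈ T}

lemma measurableSet_simp' (m : ℕ) {T : Set ℝ} (hT : MeasurableSet T) :
    MeasurableSet (simp' m T) := by
  have h1 : simp' m T = (⋂ i : Fin m, ⋂ j : Fin m, {x : Fin m → ℝ | i < j → x i < x j}) ∩
      ⋂ i : Fin m, {x : Fin m → ℝ | x i ∈ T} := by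
    ext x
    simp only [simp', StrictMono, mem_ofPred_eq, mem_inter_iff, mem_iInter]
  rw [h1]
  refine MeasurableSet.inter ?_ ?_
  · refine MeasurableSet.iInter fun i => MeasurableSet.iInter fun j => ?_
    by_cases hij : i < j
    · simp only [hij, true_implies]
      exact measurableSet_lt (measurable_pi_apply i) (measurable_pi_apply j)
    · simp [hij]
  · exact MeasurableSet.iInter fun i => measurable_pi_apply i hT

lemma simp'_volume_lt_top (m : ℕ) {T : Set ℝ} (hT : T ⊆ Icc 0 1) :
    volume (simp' m T) < ⊤ := by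
  have h1 : simp' m T ⊆ Set.pi univ (fun _ => Icc (0 : ℝ) 1) := by
    intro x hx i _
    exact hT (hx.2 i)
  exact lt_of_le_of_lt (measure_mono h1)
    (isCompact_univ_pi (fun _ => isCompact_Icc)).measure_lt_top

lemma integrableOn_prod (m : ℕ) {T : Set ℝ} (hT : T ⊆ Icc 0 1) (hTm : MeasurableSet T)
    (g : Fin m → ℝ → ℝ) (hg : ∀ i, Measurable (g i))
    (hb : ∀ i, ∀ x ∈ Icc (0 : ℝ) 1, |g i x| ≤ 1) :
    IntegrableOn (fun x : Fin m → ℝ => ∏ i, g i (x i)) (simp' m T) := by
  have hm : Measurable (fun x : Fin m → ℝ => ∏ i, g i (x i)) :=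
    Finset.measurable_prod _ fun i _ => (hg i).comp (measurable_pi_apply i)
  refine Measure.integrableOn_of_bounded (M := 1) (simp'_volume_lt_top m hT).ne
    hm.aestronglyMeasurable ?_
  rw [ae_restrict_iff' (measurableSet_simp' m hTm)]
  refine Filter.Eventually.of_forall fun x hx => ?_
  rw [Real.norm_eq_abs, Finset.abs_prod]
  exact Finset.prod_le_one (fun i _ => abs_nonneg _) (fun i _ => hb i _ (hT (hx.2 i)))

lemma integral_simp'_succ (m : ℕ) {T : Set ℝ} (hT : T ⊆ Icc 0 1) (hTm : MeasurableSet T)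
    (g : Fin (m + 1) → ℝ → ℝ) (hg : ∀ i, Measurable (g i))
    (hb : ∀ i, ∀ x ∈ Icc (0 : ℝ) 1, |g i x| ≤ 1) :
    ∫ x in simp' (m + 1) T, ∏ i, g i (x i) =
      ∫ t in T, g 0 t * ∫ y in simp' m (T ∩ Ioi t), ∏ i : Fin m, g i.succ (y i) := by
  have hI := integrableOn_prod (m + 1) hT hTm g hg hb
  have hS := measurableSet_simp' (m + 1) hTm
  rw [← integral_indicator hS]
  rw [← integrable_indicator_iff hS] at hI
  set F := (simp' (m + 1) T).indicator (fun x : Fin (m + 1) → ℝ => ∏ i, g i (x i)) with hF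
  have hp := (volume_preserving_piFinSuccAbove (fun _ : Fin (m + 1) => ℝ) 0).symm
  rw [← hp.integral_comp']
  have hI' : Integrable (fun x => F
      ((MeasurableEquiv.piFinSuccAbove (fun _ : Fin (m + 1) => ℝ) 0).symm x)) volume :=
    (hp.integrable_comp_emb (MeasurableEquiv.measurableEmbedding _)).2 hI
  rw [Measure.volume_eq_prod] at hI' ⊢
  rw [integral_prod _ hI', ← integral_indicator hTm]
  refine integral_congr_ae (Filter.Eventually.of_forall fun t => ?_)
  have he : ∀ y : Fin m → ℝ,
      (MeasurableEquiv.piFinSuccAbove (fun _ : Fin (m + 1) => ℝ) 0).symm (t, y) =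
        (Fin.cons t y : Fin (m + 1) → ℝ) := by
    intro y
    simp [MeasurableEquiv.piFinSuccAbove, Fin.insertNthEquiv, Fin.insertNth_zero']
  simp only [he]
  by_cases ht : t ∈ T
  · rw [indicator_of_mem ht, ← integral_const_mul,
      ← integral_indicator (measurableSet_simp' m (hTm.inter measurableSet_Ioi))]
    refine integral_congr_ae (Filter.Eventually.of_forall fun y => ?_)
    by_cases hy : y ∈ simp' m (T ∩ Ioi t)
    · have h2 : (Fin.cons t y : Fin (m + 1) → ℝ) ∈ simp' (m + 1) T := by
        refine ⟨Fin.strictMono_cons.2 ⟨fun j => (hy.2 j).2, hy.1⟩, fun i => ?_⟩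
        refine Fin.cases ?_ (fun j => ?_) i
        · simpa using ht
        · simpa using (hy.2 j).1
      simp only [hF, indicator_of_mem h2, indicator_of_mem hy, Fin.prod_univ_succ, Fin.cons_zero,
        Fin.cons_succ]
    · have h2 : (Fin.cons t y : Fin (m + 1) → ℝ) ∉ simp' (m + 1) T := by
        intro h
        apply hy
        have h3 := Fin.strictMono_cons.1 h.1
        refine ⟨h3.2, fun j => ⟨?_, h3.1 j⟩⟩
        simpa using h.2 j.succ
      simp only [hF, indicator_of_notMem h2, indicator_of_notMem hy]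
  · rw [indicator_of_notMem ht]
    have : ∀ y : Fin m → ℝ, F (Fin.cons t y) = 0 := by
      intro y
      have h2 : (Fin.cons t y : Fin (m + 1) → ℝ) ∉ simp' (m + 1) T := by
        intro h
        apply ht
        simpa using h.2 0
      simp only [hF, indicator_of_notMem h2]
    simp [this]

/-- backward iterated integrals -/
noncomputable def J (f : ℝ → ℝ) : List Bool → ℝ → ℝ
  | [], _ => 1
  | b :: w, s => ∫ t in s..1, letterFun f b t * J f w t

lemma measurable_letterFun {f : ℝ → ℝ} (hf : IsSublebesgue f) (b : Bool) :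
    Measurable (letterFun f b) := by
  cases b
  · have : letterFun f false = fun x => 1 - f x := by ext x; simp [letterFun]
    rw [this]; exact measurable_const.sub hf.1
  · have : letterFun f true = f := by ext x; simp [letterFun]
    rw [this]; exact hf.1

lemma letterFun_mem {f : ℝ → ℝ} (hf : IsSublebesgue f) (b : Bool) {x : ℝ}
    (hx : x ∈ Icc (0 : ℝ) 1) : letterFun f b x ∈ Icc (0 : ℝ) 1 := by
  have h := hf.2 x hx
  cases b
  · simp only [letterFun, Bool.false_eq_true, if_false]
    exact ⟨by linarith [h.2], by linarith [h.1]⟩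
  · simpa [letterFun] using h

lemma abs_letterFun_le {f : ℝ → ℝ} (hf : IsSublebesgue f) (b : Bool) {x : ℝ}
    (hx : x ∈ Icc (0 : ℝ) 1) : |letterFun f b x| ≤ 1 := by
  have h := letterFun_mem hf b hx
  rw [abs_le]; constructor <;> linarith [h.1, h.2]

lemma integral_simp'_Ioc {f : ℝ → ℝ} (hf : IsSublebesgue f) (w : List Bool) :
    ∀ s ∈ Icc (0 : ℝ) 1,
      ∫ x in simp' w.length (Ioc s 1), ∏ i : Fin w.length, letterFun f (w.get i) (x i) =
        J f w s := by
  induction w with
  | nil =>
    intro s _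
    have : simp' 0 (Ioc s 1) = univ := by
      ext x
      simp only [simp', mem_ofPred_eq, mem_univ, iff_true]
      exact ⟨fun i => i.elim0, fun i => i.elim0⟩
    simp [this, J, Measure.real, volume_pi]
  | cons b w ih =>
    intro s hs
    have hT : Ioc s 1 ⊆ Icc (0 : ℝ) 1 := fun x hx => ⟨hs.1.trans hx.1.le, hx.2⟩
    have h := integral_simp'_succ w.length hT measurableSet_Ioc
      (fun i => letterFun f ((b :: w).get i)) (fun i => measurable_letterFun hf _)
      (fun i x hx => abs_letterFun_le hf _ hx)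
    refine h.trans ?_
    rw [J, intervalIntegral.integral_of_le hs.2]
    refine setIntegral_congr_fun measurableSet_Ioc fun t ht => ?_
    have h2 : Ioc s 1 ∩ Ioi t = Ioc t 1 := by
      ext x
      simp only [mem_inter_iff, mem_Ioc, mem_Ioi]
      constructor
      · rintro ⟨⟨_, h2⟩, h3⟩; exact ⟨h3, h2⟩
      · rintro ⟨h2, h3⟩; exact ⟨⟨ht.1.trans h2, h3⟩, h2⟩
    simp only [h2]
    rw [← ih t (hT ht)]
    rfl

lemma density_cons {f : ℝ → ℝ} (hf : IsSublebesgue f) (b : Bool) (w : List Bool) :
    density (b :: w) f = ((w.length + 1).factorial : ℝ) * J f (b :: w) 0 := by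
  have h := integral_simp'_succ w.length (T := Icc 0 1) subset_rfl measurableSet_Icc
      (fun i => letterFun f ((b :: w).get i)) (fun i => measurable_letterFun hf _)
      (fun i x hx => abs_letterFun_le hf _ hx)
  unfold density
  congr 1
  refine h.trans ?_
  rw [J, intervalIntegral.integral_of_le zero_le_one, ← integral_Icc_eq_integral_Ioc]
  refine setIntegral_congr_fun measurableSet_Icc fun t ht => ?_
  have h2 : Icc 0 1 ∩ Ioi t = Ioc t 1 := by
    ext x
    simp only [mem_inter_iff, mem_Ioc, mem_Ioi, mem_Icc]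
    constructor
    · rintro ⟨⟨_, h2⟩, h3⟩; exact ⟨h3, h2⟩
    · rintro ⟨h2, h3⟩; exact ⟨⟨ht.1.trans h2.le, h3⟩, h2⟩
  simp only [h2]
  rw [← integral_simp'_Ioc hf w t ht]
  rfl

end Pool.Agent.Lib.MP_76c07a_co
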