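import Mathlib

set_option autoImplicit false

namespace Pool.Agent.Lib.MP_76c07a_co

open Filter Topology Polynomial

lemma tendsto_exp_mul_evalEval (Q : Polynomial (Polynomial ℝ)) :
    Tendsto (fun L : ℝ => Real.exp (-L) * Q.evalEval L (Real.exp (-L))) atTop (𝓝 0) := by
  induction Q using Polynomial.induction_on' with
  | add p q hp hq =>
    have := hp.add hq
    simp only [add_zero] at this
    refine this.congr fun L => ?_
    rw [evalEval_add]; ring
  | monomial k q =>
    have h1 := q.tendsto_div_exp_atTop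
    have h2 : Tendsto (fun L : ℝ => Real.exp (-L) ^ k) atTop (𝓝 (0 ^ k)) :=
      Real.tendsto_exp_neg_atTop_nhds_zero.pow k
    have := h1.mul h2
    simp only [zero_mul] at this
    refine this.congr fun L => ?_
    rw [← C_mul_X_pow_eq_monomial, evalEval_mul, evalEval_pow, evalEval_C, evalEval_X, Real.exp_neg]
    ring

lemma eq_zero_of_evalEval_exp (Q : Polynomial (Polynomial ℝ))
    (h : ∀ L : ℝ, 0 < L → Q.evalEval L (Real.exp (-L)) = 0) : Q = 0 := by
  induction hd : Q.natDegree using Nat.strong_induction_on generalizing Q with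
  | _ d ih =>
    have hQ : ∀ L u : ℝ, Q.evalEval L u = u * (divX Q).evalEval L u + (Q.coeff 0).eval L := by
      intro L u
      conv_lhs => rw [← X_mul_divX_add Q]
      rw [evalEval_add, evalEval_mul, evalEval_X, evalEval_C]
    have h0 : Q.coeff 0 = 0 := by
      have h1 : Tendsto (fun L : ℝ => (Q.coeff 0).eval L) atTop (𝓝 0) := by
        have h2 := (tendsto_exp_mul_evalEval (divX Q)).neg
        simp only [neg_zero] at h2
        refine h2.congr' ?_
        filter_upwards [eventually_gt_atTop 0] with L hL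
        have := hQ L (Real.exp (-L))
        rw [h L hL] at this
        linarith
      have h3 := (Polynomial.tendsto_nhds_iff _).1 h1
      exact leadingCoeff_eq_zero.1 h3.1
    by_cases hd0 : d = 0
    · rw [eq_C_of_natDegree_eq_zero (hd.trans hd0), h0, C_0]
    · have h4 : divX Q = 0 := by
        refine ih (divX Q).natDegree ?_ _ (fun L hL => ?_) rfl
        · rw [natDegree_divX_eq_natDegree_tsub_one]; omega
        · have := hQ L (Real.exp (-L))
          rw [h L hL, h0, eval_zero, add_zero] at this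
          exact (mul_eq_zero.1 this.symm).resolve_left (Real.exp_pos _).ne'
      rw [← X_mul_divX_add Q, h4, h0]; simp

/-- No nonzero real polynomial vanishes on the curve
`(e^{-L}(1+L)/2, (3/4) e^{-2L} L²)`, `L > 0`. -/
theorem eq_zero_of_curve (P : MvPolynomial (Fin 2) ℝ)
    (h : ∀ L : ℝ, 0 < L → MvPolynomial.eval
      ![Real.exp (-L) * (1 + L) / 2, 3 / 4 * Real.exp (-L) ^ 2 * L ^ 2] P = 0) : P = 0 := by
  let g : Fin 2 → Polynomial (Polynomial ℝ) :=
    ![X * (1 + C X) * C (C (1 / 2)), C (C (3 / 4)) * X ^ 2 * C X ^ 2]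
  have hev : ∀ (L u : ℝ) (P : MvPolynomial (Fin 2) ℝ), (MvPolynomial.aeval g P).evalEval L u =
      MvPolynomial.eval ![u * (1 + L) / 2, 3 / 4 * u ^ 2 * L ^ 2] P := by
    intro L u P
    induction P using MvPolynomial.induction_on with
    | C a => simp [Polynomial.algebraMap_apply, evalEval_C]
    | add p q hp hq => rw [map_add, evalEval_add, hp, hq, map_add]
    | mul_X p i hp =>
      rw [map_mul, evalEval_mul, hp, map_mul, MvPolynomial.aeval_X, MvPolynomial.eval_X]
      congr 1
      fin_cases i
      · simp [g, evalEval_mul, evalEval_add, evalEval_C, evalEval_X, div_eq_mul_inv]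
      · simp [g, evalEval_mul, evalEval_pow, evalEval_C, evalEval_X]
  have h1 : MvPolynomial.aeval g P = 0 :=
    eq_zero_of_evalEval_exp _ fun L hL => by rw [hev]; exact h L hL
  have h2 : ∀ L u : ℝ, MvPolynomial.eval ![u * (1 + L) / 2, 3 / 4 * u ^ 2 * L ^ 2] P = 0 := by
    intro L u
    rw [← hev, h1, evalEval_zero]
  refine MvPolynomial.funext_set (fun i => ![Set.Ioi (1 : ℝ), Set.Ioo (0 : ℝ) 1] i) ?_ ?_
  · intro i
    fin_cases i
    · exact Set.Ioi_infinite 1
    · exact Set.Ioo_infinite zero_lt_one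
  · intro x hx
    have hx0 : 1 < x 0 := hx 0 (Set.mem_univ _)
    have hx1 : x 1 ∈ Set.Ioo (0 : ℝ) 1 := hx 1 (Set.mem_univ _)
    set c := √(4 / 3 * x 1) with hc
    have hc2 : c ^ 2 = 4 / 3 * x 1 := Real.sq_sqrt (by linarith [hx1.1])
    have hc0 : 0 ≤ c := Real.sqrt_nonneg _
    have hc3 : c < 2 := by nlinarith [hx1.2]
    have hu : 2 * x 0 - c ≠ 0 := by linarith
    have h3 := h2 (c / (2 * x 0 - c)) (2 * x 0 - c)
    have h4 : ![(2 * x 0 - c) * (1 + c / (2 * x 0 - c)) / 2,
        3 / 4 * (2 * x 0 - c) ^ 2 * (c / (2 * x 0 - c)) ^ 2] = x := by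
      ext i
      fin_cases i
      · simp only [Fin.zero_eta, Matrix.cons_val_zero]
        field_simp
        ring
      · simp only [Fin.mk_one, Matrix.cons_val_one, Matrix.cons_val_zero]
        field_simp
        linarith
    rw [h4] at h3
    simpa using h3

end Pool.Agent.Lib.MP_76c07a_co
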